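import Pool.Agent.H468.WJ.Fi
import Pool.Agent.H468.WN.Cur

/-!
# The limit laws for simultaneous twists
-/

set_option autoImplicit false
set_option linter.all false

open scoped Classical

namespace Pool.Agent.H468.WJ

open Finset Filter Topology
open Pool.Agent.Y703.CQ (c2)
open Pool.Agent.N916.GB (eta)
open Pool.Agent.H743.X17 (Sys Rt num num_close)
open Pool.Agent.N855.GF.Lc17 (Lc Loc)
open Pool.Agent.N919.BS (NN NS)
open Pool.Agent.H743.JL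
open Pool.Agent.H468.WM (LL LL_top opf Wt cnt HGW)
open Pool.Agent.H468.WN (wt_dvd close_NSW ek_NS Eg wt_eg th near_th)
open Pool.Agent.H998_EK (Phi Phi_nonneg Phi_le_one)
open Pool.Agent.H468.WV

theorem kp_01 (Tp A T' A' : Finset ℤ) : 0 ≤ kp Tp A T' A' ∧ kp Tp A T' A' ≤ 1 := by
  obtain ⟨a0, a1⟩ := Pool.Agent.N916.MO.c201
  obtain ⟨b0, b1⟩ := Pool.Agent.N218.GB.Asy.eta_mem
  have a2 : 0 ≤ 1 - c2 := by linarith
  have a3 : 1 - c2 ≤ 1 := by linarith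
  have b2 : 0 ≤ 1 - eta := by linarith
  have b3 : 1 - eta ≤ 1 := by linarith
  unfold kp
  refine ⟨by positivity, ?_⟩
  refine mul_le_one₀ ?_ (by positivity) ?_
  · exact mul_le_one₀ (pow_le_one₀ a0 a1) (by positivity) (pow_le_one₀ a2 a3)
  · exact mul_le_one₀ (pow_le_one₀ b0 b1) (by positivity) (pow_le_one₀ b2 b3)

/-- **independence of the patterns and of the numbers of the prime factors in the classes** -/
theorem indep_pat (T T' : Finset ℤ) (inf : Prop) (S : Finset ℕ) (d₀ : ℤ)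
    (hT : ∀ t ∈ T, Squarefree t) (hT' : ∀ t ∈ T', Squarefree t ∧ tw t d₀ < 0)
    (hS : ∀ p ∈ S, p.Prime) (hd : Squarefree d₀) {q : ℕ} (hq : 0 < q) {A A' : Finset ℤ}
    (hA : A ⊆ T.filter (fun t => Rt (tw t d₀))) (hA' : A' ⊆ T') {F : ℤ → Prop} (Z : Finset ℤ)
    (hF : ∀ d, Squarefree d → d ∉ Z → Qc2 T T' inf S d₀ d → (F d ↔ Pat T A T' A' d))
    (ε : ℝ) (hε : 0 < ε) : ∃ X₀ : ℕ, ∀ X : ℕ, X₀ ≤ X → ∀ W : Finset ℕ → Prop, Wt q W →
      |(num (fun d => Qc2 T T' inf S d₀ d ∧ F d ∧ W (opf d)) X : ℝ) -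
        kp (T.filter (fun t => Rt (tw t d₀))) A T' A' *
          num (fun d => Qc2 T T' inf S d₀ d ∧ W (opf d)) X| ≤ ε * X := by
  obtain ⟨m, h136, hm, hQ, -, hM⟩ := mod2 T T' inf S d₀ hT hT' hS hd
  obtain ⟨G, hG, hGP⟩ := hM (m * q) (Nat.mul_pos hm hq) (Dvd.intro _ rfl) A hA A' hA'
  obtain ⟨X₁, h5⟩ := close_NSW hG (ε / 2) (by positivity)
  obtain ⟨X₂, hX₂⟩ := exists_nat_gt (2 * Z.card / ε)
  refine ⟨X₁ + X₂, fun X hX W hW => ?_⟩
  have h6 := h5 X (by omega) W (wt_dvd (Nat.mul_pos hm hq) (Dvd.intro_left _ rfl) hW)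
  have k1 : num (fun d => Qc2 T T' inf S d₀ d ∧ F d ∧ W (opf d)) X ≤
      num (fun d => Qc2 T T' inf S d₀ d ∧ (G d ∧ W (opf d))) X + Z.card := by
    refine num_close Z (fun d hd h => ?_) X
    rintro ⟨a1, a2, a3⟩
    exact ⟨a1, (hGP d hd a1).2 ((hF d hd h a1).1 a2), a3⟩
  have k2 : num (fun d => Qc2 T T' inf S d₀ d ∧ (G d ∧ W (opf d))) X ≤
      num (fun d => Qc2 T T' inf S d₀ d ∧ F d ∧ W (opf d)) X + Z.card := by
    refine num_close Z (fun d hd h => ?_) X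
    rintro ⟨a1, a2, a3⟩
    exact ⟨a1, (hF d hd h a1).2 ((hGP d hd a1).1 a2), a3⟩
  have k1' : (num (fun d => Qc2 T T' inf S d₀ d ∧ F d ∧ W (opf d)) X : ℝ) ≤
      num (fun d => Qc2 T T' inf S d₀ d ∧ (G d ∧ W (opf d))) X + Z.card := by exact_mod_cast k1
  have k2' : (num (fun d => Qc2 T T' inf S d₀ d ∧ (G d ∧ W (opf d))) X : ℝ) ≤
      num (fun d => Qc2 T T' inf S d₀ d ∧ F d ∧ W (opf d)) X + Z.card := by exact_mod_cast k2
  have hX2 : (X₂ : ℝ) ≤ X := by exact_mod_cast (by omega : X₂ ≤ X)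
  have hX3 : 2 * Z.card / ε < X := by linarith
  rw [div_lt_iff₀ hε] at hX3
  have h7 : |(num (fun d => Qc2 T T' inf S d₀ d ∧ (G d ∧ W (opf d))) X : ℝ) -
      kp (T.filter (fun t => Rt (tw t d₀))) A T' A' *
        num (fun d => Qc2 T T' inf S d₀ d ∧ W (opf d)) X| ≤ ε / 2 * X := h6
  rw [abs_le] at h7 ⊢
  constructor <;> linarith [h7.1, h7.2]

/-! ### limit laws -/

variable {ι : Type} [Fintype ι] {f : ι → ℕ → ℝ} {mu lam : ι → ℝ} {g : ι → Finset ℕ → ℝ}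

/-- the criterion and Erdős–Kac at once -/
theorem clt_NSP (hf : Vec f mu lam) (hg : ∀ i n, f i n = g i n.primeFactors)
    (hg' : ∀ i S S', cnt 136 S = cnt 136 S' → g i S = g i S')
    {m : ℕ} (h136 : 136 ∣ m) (hm : 0 < m) {P G : ℤ → Prop} {c : ℝ} (hc0 : 0 ≤ c) (hc1 : c ≤ 1)
    (hP : Lc m P) (hG : HGW m P G c) (y : ι → ℝ) (ε : ℝ) (hε : 0 < ε) :
    ∃ (δ : ℝ) (X₀ : ℕ), 0 < δ ∧ ∀ X : ℕ, X₀ ≤ X → ∀ T : ι → ℝ, Near mu lam y δ X T →
      |(NS (fun d => P d ∧ (G d ∧ Eg g T (opf d))) X : ℝ) - c * kap y * NS P X| ≤ ε * X := by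
  obtain ⟨δ, X₀, hδ, h1⟩ := ek_NS hf hg h136 hm hP y (ε / 2) (by positivity)
  obtain ⟨X₁, h2⟩ := close_NSW hG (ε / 2) (by positivity)
  refine ⟨δ, X₀ + X₁, hδ, fun X hX T hT => ?_⟩
  have a1 := h1 X (by omega) T hT (fun d => P d ∧ Eg g T (opf d)) fun _ => Iff.rfl
  have a2 := h2 X (by omega) (Eg g T) (wt_dvd hm h136 (wt_eg hg' T))
  have a3 : |c * ((NS (fun d => P d ∧ Eg g T (opf d)) X : ℝ) - kap y * NS P X)| ≤ ε / 2 * X := by
    rw [abs_mul, abs_of_nonneg hc0]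
    calc c * |(NS (fun d => P d ∧ Eg g T (opf d)) X : ℝ) - kap y * NS P X| ≤ 1 * (ε / 2 * X) :=
          mul_le_mul hc1 a1 (abs_nonneg _) zero_le_one
      _ = ε / 2 * X := one_mul _
  rw [abs_le] at a2 a3 ⊢
  constructor
  · linarith [a2.1, a3.1]
  · linarith [a2.2, a3.2]

/-- **the limit law for a pattern**, for a property between two bounds -/
theorem clt_pat (hf : Vec f mu lam) (hg : ∀ i n, f i n = g i n.primeFactors)
    (hg' : ∀ i S S', cnt 136 S = cnt 136 S' → g i S = g i S') {K : ℝ} (hK : 0 < K)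
    (T T' : Finset ℤ) (inf : Prop) (S : Finset ℕ) (d₀ : ℤ)
    (hT : ∀ t ∈ T, Squarefree t) (hT' : ∀ t ∈ T', Squarefree t ∧ tw t d₀ < 0)
    (hS : ∀ p ∈ S, p.Prime) (hd : Squarefree d₀) {A A' : Finset ℤ}
    (hA : A ⊆ T.filter (fun t => Rt (tw t d₀))) (hA' : A' ⊆ T') (Z : Finset ℤ)
    {F : (ι → ℝ) → ℤ → Prop}
    (h1 : ∀ (Th : ι → ℝ) d, Squarefree d → d ∉ Z → Qc2 T T' inf S d₀ d → Pat T A T' A' d →
      Eg g (fun i => Th i + -K) (opf d) → F Th d)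
    (h2 : ∀ (Th : ι → ℝ) d, Squarefree d → d ∉ Z → Qc2 T T' inf S d₀ d → F Th d →
      Pat T A T' A' d ∧ Eg g (fun i => Th i + K) (opf d))
    (y : ι → ℝ) : Tendsto (fun X : ℕ =>
      (num (fun d => Qc2 T T' inf S d₀ d ∧ F (th mu lam y X) d) X : ℝ) /
      (num (Qc2 T T' inf S d₀) X : ℝ)) atTop
      (𝓝 (kp (T.filter (fun t => Rt (tw t d₀))) A T' A' * kap y)) := by
  obtain ⟨m, h136, hm, hQ, ⟨c, X₀, hc, hlow⟩, hM⟩ := mod2 T T' inf S d₀ hT hT' hS hd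
  obtain ⟨G, hG, hGP⟩ := hM m hm dvd_rfl A hA A' hA'
  obtain ⟨k0, k1⟩ := kp_01 (T.filter (fun t => Rt (tw t d₀))) A T' A'
  obtain ⟨κ, hκ⟩ : ∃ κ : ℝ, κ = kp (T.filter (fun t => Rt (tw t d₀))) A T' A' := ⟨_, rfl⟩
  rw [← hκ] at hG k0 k1 ⊢
  obtain ⟨N, hN⟩ : ∃ N : ℝ, N = (Z.card : ℝ) := ⟨_, rfl⟩
  have hN0 : 0 ≤ N := by
    rw [hN]
    positivity
  rw [Metric.tendsto_atTop]
  intro ε hε
  obtain ⟨δ, X₁, hδ, h3⟩ := clt_NSP hf hg hg' h136 hm k0 k1 hQ hG y (ε * c / 8) (by positivity)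
  obtain ⟨X₂, hX₂⟩ := eventually_atTop.1 (LL_top.eventually (eventually_ge_atTop ((K / δ) ^ 2)))
  obtain ⟨X₃, hX₃⟩ := exists_nat_gt (16 * N / (c * ε))
  refine ⟨X₀ + X₁ + X₂ + X₃ + 1, fun X hX => ?_⟩
  have hL : (K / δ) ^ 2 ≤ LL X := hX₂ X (by omega)
  have hs : K / δ ≤ √(LL X) := Real.le_sqrt_of_sq_le hL
  have hs2 : K ≤ δ * √(LL X) := by
    rw [div_le_iff₀ hδ] at hs
    linarith
  obtain ⟨Th, hTh⟩ : ∃ Th : ι → ℝ, Th = th mu lam y X := ⟨_, rfl⟩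
  have n1 : Near mu lam y δ X (fun i => Th i + -K) := by
    rw [hTh]
    exact near_th mu lam y (by rw [abs_neg, abs_of_pos hK]; exact hs2)
  have n2 : Near mu lam y δ X (fun i => Th i + K) := by
    rw [hTh]
    exact near_th mu lam y (by rw [abs_of_pos hK]; exact hs2)
  rw [← hTh]
  have a1 := h3 X (by omega) (fun i => Th i + -K) n1
  have a2 := h3 X (by omega) (fun i => Th i + K) n2
  have b1 : num (fun d => Qc2 T T' inf S d₀ d ∧ (G d ∧ Eg g (fun i => Th i + -K) (opf d))) X ≤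
      num (fun d => Qc2 T T' inf S d₀ d ∧ F Th d) X + Z.card := by
    refine num_close Z (fun d hd h => ?_) X
    rintro ⟨u1, u2, u3⟩
    exact ⟨u1, h1 Th d hd h u1 ((hGP d hd u1).1 u2) u3⟩
  have b2 : num (fun d => Qc2 T T' inf S d₀ d ∧ F Th d) X ≤
      num (fun d => Qc2 T T' inf S d₀ d ∧ (G d ∧ Eg g (fun i => Th i + K) (opf d))) X + Z.card := by
    refine num_close Z (fun d hd h => ?_) X
    rintro ⟨u1, u2⟩
    obtain ⟨u3, u4⟩ := h2 Th d hd h u1 u2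
    exact ⟨u1, (hGP d hd u1).2 u3, u4⟩
  have hlo : c * X ≤ (num (Qc2 T T' inf S d₀) X : ℝ) := hlow X (by omega)
  have c1 : (num (fun d => Qc2 T T' inf S d₀ d ∧ (G d ∧ Eg g (fun i => Th i + -K) (opf d))) X : ℝ) ≤
      (num (fun d => Qc2 T T' inf S d₀ d ∧ F Th d) X : ℝ) + N := by
    rw [hN]
    exact_mod_cast b1
  have c3 : (num (fun d => Qc2 T T' inf S d₀ d ∧ F Th d) X : ℝ) ≤
      (num (fun d => Qc2 T T' inf S d₀ d ∧ (G d ∧ Eg g (fun i => Th i + K) (opf d))) X : ℝ) + N := by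
    rw [hN]
    exact_mod_cast b2
  obtain ⟨u, hu⟩ : ∃ u : ℝ, u = (num (fun d => Qc2 T T' inf S d₀ d ∧
    (G d ∧ Eg g (fun i => Th i + -K) (opf d))) X : ℝ) := ⟨_, rfl⟩
  obtain ⟨v, hv⟩ : ∃ v : ℝ, v = (num (fun d => Qc2 T T' inf S d₀ d ∧
    (G d ∧ Eg g (fun i => Th i + K) (opf d))) X : ℝ) := ⟨_, rfl⟩
  obtain ⟨M, hM'⟩ : ∃ M : ℝ, M = (num (Qc2 T T' inf S d₀) X : ℝ) := ⟨_, rfl⟩
  have a1' : |u - κ * kap y * M| ≤ ε * c / 8 * X := by
    rw [hu, hM']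
    exact a1
  have a2' : |v - κ * kap y * M| ≤ ε * c / 8 * X := by
    rw [hv, hM']
    exact a2
  rw [← hu] at c1
  rw [← hv] at c3
  rw [← hM'] at hlo ⊢
  have hX3 : (X₃ : ℝ) ≤ X := by exact_mod_cast (by omega : X₃ ≤ X)
  have hX5 : 16 * N / (c * ε) < X := by linarith
  rw [div_lt_iff₀ (by positivity)] at hX5
  have hXp : 0 < (X : ℝ) := by exact_mod_cast (by omega : 0 < X)
  have hU0 : 0 < M := by
    have : 0 < c * X := by positivity
    linarith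
  rw [Real.dist_eq, div_sub' hU0.ne', abs_div, abs_of_pos hU0, div_lt_iff₀ hU0]
  have key : ε * c / 8 * X + N < ε * M := by
    have h5 : ε * (c * X) ≤ ε * M := mul_le_mul_of_nonneg_left hlo hε.le
    have h6 : 0 < ε * c * X := by positivity
    linarith
  rw [abs_le] at a1' a2'
  rw [abs_lt]
  constructor
  · linarith [a1'.1, a2'.1]
  · linarith [a1'.2, a2'.2]

/-! ### the exceptions -/

/-- the integers `d` with `tw t d` in `E` for a `t` in `T` -/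
def exc (T E : Finset ℤ) : Finset ℤ := T.biUnion fun t => E.image fun e => tw t e

theorem exc_not {T E : Finset ℤ} (hT : ∀ t ∈ T, Squarefree t) {d : ℤ} (hd : Squarefree d)
    (h : d ∉ exc T E) : ∀ t ∈ T, tw t d ∉ E := by
  intro t ht he
  apply h
  obtain ⟨tA, -, tS, tO, -, -⟩ := Pool.Agent.H955.JL.TT.t_TT
  refine mem_biUnion.2 ⟨t, ht, mem_image.2 ⟨tw t d, he, ?_⟩⟩
  rw [tA t t d (hT t ht) (hT t ht) hd, tS t (hT t ht), tO]

/-- the prime factors of a twist -/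
theorem opf_tw {t d : ℤ} (ht : Squarefree t) (hd : Squarefree d) :
    opf (tw t d) ⊆ opf d ∪ t.natAbs.primeFactors ∧ opf d ⊆ opf (tw t d) ∪ t.natAbs.primeFactors := by
  have key : ∀ a b : ℤ, Squarefree a → Squarefree b → opf (tw a b) ⊆ opf b ∪ a.natAbs.primeFactors := by
    intro a b ha hb p hp
    unfold Pool.Agent.H468.WM.opf at hp ⊢
    obtain ⟨p2, hp⟩ := mem_erase.1 hp
    have hpp := Nat.prime_of_mem_primeFactors hp
    have hpd := Nat.dvd_of_mem_primeFactors hp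
    have h0 : a * b ≠ 0 := mul_ne_zero ha.ne_zero hb.ne_zero
    have h1 : tw a b ∣ a * b := by
      unfold tw
      refine ⟨(Int.gcd a b : ℤ) ^ 2, ?_⟩
      rw [Int.ediv_mul_cancel]
      rw [pow_two]
      exact mul_dvd_mul (Int.gcd_dvd_left a b) (Int.gcd_dvd_right a b)
    have h2 : p ∣ a.natAbs * b.natAbs := by
      rw [← Int.natAbs_mul]
      exact hpd.trans (Int.natAbs_dvd_natAbs.2 h1)
    rcases (hpp.dvd_mul).1 h2 with h3 | h3
    · exact mem_union_right _ (Nat.mem_primeFactors.2 ⟨hpp, h3, Int.natAbs_ne_zero.2 ha.ne_zero⟩)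
    · exact mem_union_left _ (mem_erase.2 ⟨p2, Nat.mem_primeFactors.2 ⟨hpp, h3,
        Int.natAbs_ne_zero.2 hb.ne_zero⟩⟩)
  obtain ⟨tA, -, tS, tO, -, -⟩ := Pool.Agent.H955.JL.TT.t_TT
  refine ⟨key t d ht hd, ?_⟩
  have h1 := key t (tw t d) ht (Pool.Agent.N855.GF.Tw.tw_sqf ht hd)
  rw [tA t t d ht ht hd, tS t ht, tO] at h1
  exact h1

theorem card_tw {t d : ℤ} (ht : Squarefree t) (hd : Squarefree d) (P : ℕ → Prop)
    {inst : DecidablePred P} :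
    |(((opf (tw t d)).filter P).card : ℝ) - ((opf d).filter P).card| ≤ t.natAbs.primeFactors.card := by
  obtain ⟨h1, h2⟩ := opf_tw ht hd
  have key : ∀ S S' U : Finset ℕ, S ⊆ S' ∪ U → (S.filter P).card ≤ (S'.filter P).card + U.card := by
    intro S S' U h
    refine (card_le_card (t := S'.filter P ∪ U) ?_).trans (card_union_le _ _)
    intro p hp
    obtain ⟨a, b⟩ := mem_filter.1 hp
    rcases mem_union.1 (h a) with c | c
    · exact mem_union_left _ (mem_filter.2 ⟨c, b⟩)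
    · exact mem_union_right _ c
  have k1 : (((opf (tw t d)).filter P).card : ℝ) ≤ ((opf d).filter P).card + t.natAbs.primeFactors.card := by
    exact_mod_cast key _ _ _ h1
  have k2 : (((opf d).filter P).card : ℝ) ≤ ((opf (tw t d)).filter P).card + t.natAbs.primeFactors.card := by
    exact_mod_cast key _ _ _ h2
  rw [abs_le]
  constructor <;> linarith

theorem n3_tw {t d : ℤ} (ht : Squarefree t) (hd : Squarefree d) :
    |(Pool.Agent.H468.WN.n3 (opf (tw t d)) : ℝ) - Pool.Agent.H468.WN.n3 (opf d)| ≤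
      t.natAbs.primeFactors.card := by
  unfold Pool.Agent.H468.WN.n3
  exact card_tw ht hd _

theorem n17_tw {t d : ℤ} (ht : Squarefree t) (hd : Squarefree d) :
    |(Pool.Agent.H468.WN.n17 (opf (tw t d)) : ℝ) - Pool.Agent.H468.WN.n17 (opf d)| ≤
      t.natAbs.primeFactors.card := by
  unfold Pool.Agent.H468.WN.n17
  exact card_tw ht hd _

end Pool.Agent.H468.WJ
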