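import Pool.Agent.H468.WJ.Hj
import Pool.Agent.H468.WN.Clt

/-!
# The joint law for all squarefree integers in a class, uniformly in the condition on the prime factors
(after `Pool.Agent.H225.JX` of helper225)
-/

set_option autoImplicit false
set_option linter.all false

open scoped Classical

namespace Pool.Agent.H468.WJ

open Finset Filter Topology
open Pool.Agent.Y703.CQ (c2)
open Pool.Agent.N916.GB (eta)
open Pool.Agent.H743.X17 (Sys Rt)
open Pool.Agent.N855.GF.Lc17 (Lc Loc lc_Loc lc_and low_P)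
open Pool.Agent.N919.BS (NN NS HG)
open Pool.Agent.H743.JL
open Pool.Agent.H225.JX
open Pool.Agent.H468.WM (opf Wt cnt HGW)
open Pool.Agent.H468.WN (wt_dvd close_NSW)

theorem base2W (A : Finset (ℤ ⊕ ℤ)) (m : ℕ) (Q : ℤ → Prop) (hm : 136 ∣ m)
    (hm0 : 0 < m) (hA : ∀ x ∈ A, Squarefree (tv x) ∧ tv x ∣ m) (hQ : Lc m Q)
    (hR : ∀ d, Squarefree d → Q d → ∀ x ∈ A, Ro (kd x) (tw (tv x) d)) :
    HGW m Q (Pt2 A ∅) (∏ x ∈ A, ck (kd x)) := by
  have h1 := hj2W (lv2 Pool.Agent.H348.JL.t_SE) A.card (fun i => kd (A.equivFin.symm i : ℤ ⊕ ℤ))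
    (fun i => tv (A.equivFin.symm i : ℤ ⊕ ℤ)) m Q hm hm0
    (fun i => hA _ (A.equivFin.symm i).2)
    (fun i j hij hk => A.equivFin.symm.injective (Subtype.ext (tv_inj hij hk))) hQ
    (fun d hd hQd i => hR d hd hQd _ (A.equivFin.symm i).2)
  refine HGW_congr h1 (fun d _ => ?_) ?_
  · constructor
    · intro h2
      refine ⟨fun t ht => ?_, fun t ht => absurd ht (Finset.notMem_empty t)⟩
      have h3 := h2 (A.equivFin ⟨t, ht⟩)
      simpa using h3
    · intro h2 i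
      exact h2.1 _ (A.equivFin.symm i).2
  · rw [← Finset.prod_coe_sort A]
    exact Fintype.prod_equiv A.equivFin.symm _ _ fun i => rfl

theorem key2W (T : Finset (ℤ ⊕ ℤ)) (m : ℕ) (Q : ℤ → Prop) (hm : 136 ∣ m)
    (hm0 : 0 < m) (hT : ∀ x ∈ T, Squarefree (tv x) ∧ tv x ∣ m) (hQ : Lc m Q)
    (hR : ∀ d, Squarefree d → Q d → ∀ x ∈ T, Ro (kd x) (tw (tv x) d)) :
    ∀ B : Finset (ℤ ⊕ ℤ), B ⊆ T → ∀ A : Finset (ℤ ⊕ ℤ), A ⊆ T → Disjoint A B →
      HGW m Q (Pt2 A B) ((∏ x ∈ A, ck (kd x)) * ∏ x ∈ B, (1 - ck (kd x))) := by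
  intro B
  induction B using Finset.induction_on with
  | empty =>
    intro _ A hA _
    refine HGW_congr (base2W A m Q hm hm0 (fun t ht => hT t (hA ht)) hQ
      (fun d hd hQd t ht => hR d hd hQd t (hA ht))) (fun d _ => Iff.rfl) ?_
    simp
  | insert b B hb ih =>
    intro hB A hA hAB
    have hbT : b ∈ T := hB (Finset.mem_insert_self _ _)
    have hBT : B ⊆ T := fun x hx => hB (Finset.mem_insert_of_mem hx)
    have hbA : b ∉ A := fun hx => Finset.disjoint_left.1 hAB hx (Finset.mem_insert_self _ _)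
    have hd1 : Disjoint A B := Finset.disjoint_left.2 fun x hx hx' =>
      Finset.disjoint_left.1 hAB hx (Finset.mem_insert_of_mem hx')
    have hd2 : Disjoint (insert b A) B := by
      rw [Finset.disjoint_left]
      intro x hx hx'
      rcases Finset.mem_insert.1 hx with rfl | hx
      · exact hb hx'
      · exact Finset.disjoint_left.1 hd1 hx hx'
    have i1 := ih hBT A hA hd1
    have i2 := ih hBT (insert b A) (Finset.insert_subset hbT hA) hd2
    refine HGW_congr (HGW_sub (G := Pt2 A (insert b B)) i1 i2 (fun d _ => ?_) (fun d _ => ?_))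
      (fun d _ => Iff.rfl) ?_
    · unfold Pt2
      constructor
      · rintro ⟨a1, a2⟩
        exact ⟨⟨a1, fun t ht => a2 t (Finset.mem_insert_of_mem ht)⟩, fun ⟨a3, _⟩ =>
          a2 b (Finset.mem_insert_self _ _) (a3 b (Finset.mem_insert_self _ _))⟩
      · rintro ⟨⟨a1, a2⟩, a3⟩
        refine ⟨a1, fun t ht => ?_⟩
        rcases Finset.mem_insert.1 ht with rfl | ht
        · intro h4
          refine a3 ⟨fun t' ht' => ?_, a2⟩
          rcases Finset.mem_insert.1 ht' with rfl | ht'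
          · exact h4
          · exact a1 t' ht'
        · exact a2 t ht
    · rintro ⟨a1, a2⟩
      exact ⟨fun t ht => a1 t (Finset.mem_insert_of_mem ht), a2⟩
    · rw [Finset.prod_insert hbA, Finset.prod_insert hb]
      ring

/-- the pattern -/
def Pat (T A T' A' : Finset ℤ) (d : ℤ) : Prop :=
  (∀ t ∈ T, (Sys (tw t d) ↔ t ∈ A)) ∧ ∀ t ∈ T', (H4 (tw t d) ↔ t ∈ A')

/-- the constant of the pattern -/
noncomputable def kp (Tp A T' A' : Finset ℤ) : ℝ :=
  c2 ^ A.card * (1 - c2) ^ (Tp \ A).card * (eta ^ A'.card * (1 - eta) ^ (T' \ A').card)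

/-- **the joint law with a modulus**: a lower bound for the class, the local constancy and the
closeness in the types, uniformly in the conditions -/
theorem mod2 (T T' : Finset ℤ) (inf : Prop) (S : Finset ℕ) (d₀ : ℤ)
    (hT : ∀ t ∈ T, Squarefree t) (hT' : ∀ t ∈ T', Squarefree t ∧ tw t d₀ < 0)
    (hS : ∀ p ∈ S, p.Prime) (hd : Squarefree d₀) :
    ∃ m₁ : ℕ, 136 ∣ m₁ ∧ 0 < m₁ ∧ Lc m₁ (Qc2 T T' inf S d₀) ∧
      (∃ (c : ℝ) (X₀ : ℕ), 0 < c ∧ ∀ X : ℕ, X₀ ≤ X → c * X ≤ (NS (Qc2 T T' inf S d₀) X : ℝ)) ∧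
      ∀ m : ℕ, 0 < m → m₁ ∣ m → ∀ A ⊆ T.filter (fun t => Rt (tw t d₀)), ∀ A' ⊆ T',
        ∃ G : ℤ → Prop, HGW m (Qc2 T T' inf S d₀) G (kp (T.filter (fun t => Rt (tw t d₀))) A T' A') ∧
          ∀ d, Squarefree d → Qc2 T T' inf S d₀ d → (G d ↔ Pat T A T' A' d) := by
  have h1 := Pool.Agent.H721.JLLR.t_LR
  have hp := Pool.Agent.H743.X17.QPARITY.t_PARITY
  obtain ⟨m₀, h136, hm₀, hL⟩ := lc_Loc inf S hS d₀
  obtain ⟨m, hm⟩ : ∃ m : ℕ, m = m₀ * ((∏ t ∈ T, t.natAbs) * ∏ t ∈ T', t.natAbs) := ⟨_, rfl⟩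
  have hmpos : 0 < m := by
    rw [hm]
    refine Nat.mul_pos hm₀ (Nat.mul_pos (prod_pos fun t ht => ?_) (prod_pos fun t ht => ?_))
    · exact Int.natAbs_pos.2 (hT t ht).ne_zero
    · exact Int.natAbs_pos.2 (hT' t ht).1.ne_zero
  have hm1 : m₀ ∣ m := by
    rw [hm]
    exact Dvd.intro _ rfl
  have h136m : 136 ∣ m := h136.trans hm1
  have hnat : ∀ (F : Finset ℤ), ∀ t ∈ F, t ∣ ((∏ t ∈ F, t.natAbs : ℕ) : ℤ) := by
    intro F t ht
    have h3 : t ∣ ((t.natAbs : ℕ) : ℤ) := Int.dvd_natAbs.2 dvd_rfl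
    have h4 : t.natAbs ∣ ∏ t ∈ F, t.natAbs := dvd_prod_of_mem _ ht
    exact h3.trans (by exact_mod_cast h4)
  have hdvd : ∀ t ∈ T, 136 * t ∣ (m : ℤ) := by
    intro t ht
    have e : (m : ℤ) = (m₀ : ℤ) * (((∏ t ∈ T, t.natAbs : ℕ) : ℤ) *
        ((∏ t ∈ T', t.natAbs : ℕ) : ℤ)) := by
      rw [hm]
      norm_cast
    rw [e]
    refine mul_dvd_mul (by exact_mod_cast h136) ((hnat T t ht).trans (Dvd.intro _ rfl))
  have hdvd' : ∀ t ∈ T', t ∣ (m : ℤ) := by
    intro t ht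
    have e : (m : ℤ) = (m₀ : ℤ) * (((∏ t ∈ T, t.natAbs : ℕ) : ℤ) *
        ((∏ t ∈ T', t.natAbs : ℕ) : ℤ)) := by
      rw [hm]
      norm_cast
    rw [e]
    exact ((hnat T' t ht).trans (Dvd.intro_left _ rfl)).trans (Dvd.intro_left _ rfl)
  have hQ : Lc m (Qc2 T T' inf S d₀) := by
    intro s k M N hs hk hM hN e1 e2 e3
    unfold Qc2
    refine and_congr (and_congr ?_ ?_)
      (Pool.Agent.H181.JL.Lc.of_dvd hm1 hL s k M N hs hk hM hN e1 e2 e3)
    · refine forall_congr' fun t => forall_congr' fun ht => ?_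
      exact iff_congr (h1 t m (hT t ht) (hdvd t ht) s k M N hs hk hM hN e1 e2 e3) Iff.rfl
    · refine forall_congr' fun t => forall_congr' fun ht => ?_
      exact iff_congr (lc_sign (hT' t ht).1.ne_zero m s k M N hs hk hM hN e1 e2 e3) Iff.rfl
  have hQ0 : Qc2 T T' inf S d₀ d₀ :=
    ⟨⟨fun _ _ => Iff.rfl, fun _ _ => Iff.rfl⟩, Pool.Agent.H181.JL.Loc_self inf S hd⟩
  obtain ⟨c, X₀, hc, hlow⟩ := low_P (Dvd.dvd.trans (by norm_num) h136m) hmpos hQ hd hQ0
  refine ⟨m, h136m, hmpos, hQ, ⟨c, X₀, hc, fun X hX => (hlow X hX).2⟩,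
    fun M hM0 hmM A hA A' hA' => ?_⟩
  obtain ⟨Tp, hTp⟩ : ∃ Tp : Finset ℤ, Tp = T.filter (fun t => Rt (tw t d₀)) := ⟨_, rfl⟩
  rw [← hTp] at hA ⊢
  have hmM' : (m : ℤ) ∣ (M : ℤ) := by exact_mod_cast hmM
  have hG := key2W (Tp.disjSum T') M (Qc2 T T' inf S d₀) (h136m.trans hmM) hM0 (fun x hx => by
      rcases x with t | t
      · rw [Finset.inl_mem_disjSum, hTp, mem_filter] at hx
        exact ⟨hT t hx.1, ((Dvd.intro_left _ rfl).trans (hdvd t hx.1)).trans hmM'⟩
      · rw [Finset.inr_mem_disjSum] at hx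
        exact ⟨(hT' t hx).1, (hdvd' t hx).trans hmM'⟩) (Pool.Agent.H468.WN.Lc.up hQ hmM)
    (fun d hd' hq x hx => by
      rcases x with t | t
      · rw [Finset.inl_mem_disjSum, hTp, mem_filter] at hx
        rw [Ro_inl]
        exact (hq.1.1 t hx.1).2 hx.2
      · rw [Finset.inr_mem_disjSum] at hx
        rw [Ro_inr]
        exact (hq.1.2 t hx).2 (hT' t hx).2)
    ((Tp \ A).disjSum (T' \ A')) (Finset.disjSum_mono Finset.sdiff_subset Finset.sdiff_subset)
    (A.disjSum A') (Finset.disjSum_mono hA hA') (by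
      rw [Finset.disjoint_left]
      intro x hx hx'
      rcases x with t | t
      · rw [Finset.inl_mem_disjSum] at hx hx'
        exact (Finset.mem_sdiff.1 hx').2 hx
      · rw [Finset.inr_mem_disjSum] at hx hx'
        exact (Finset.mem_sdiff.1 hx').2 hx)
  have hval : (∏ x ∈ A.disjSum A', ck (kd x)) *
      ∏ x ∈ (Tp \ A).disjSum (T' \ A'), (1 - ck (kd x)) = kp Tp A T' A' := by
    rw [Finset.prod_disjSum, Finset.prod_disjSum]
    simp only [ck_inl, ck_inr, Finset.prod_const]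
    unfold kp
    ring
  rw [hval] at hG
  refine ⟨_, hG, fun d hsq hq => ?_⟩
  constructor
  · rintro ⟨h3, h4⟩
    refine ⟨fun t ht => ?_, fun t ht => ?_⟩
    · by_cases hR : Rt (tw t d₀)
      · have htp : t ∈ Tp := by
          rw [hTp, mem_filter]
          exact ⟨ht, hR⟩
        constructor
        · intro h5
          by_contra h6
          have h7 := h4 (Sum.inl t) (Finset.inl_mem_disjSum.2 (Finset.mem_sdiff.2 ⟨htp, h6⟩))
          rw [Kd_inl] at h7
          exact h7 h5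
        · intro h5
          have h7 := h3 (Sum.inl t) (Finset.inl_mem_disjSum.2 h5)
          rw [Kd_inl] at h7
          exact h7
      · have h5 : ¬ Rt (tw t d) := fun h5 => hR ((hq.1.1 t ht).1 h5)
        have h6 : ¬ Sys (tw t d) := hp _ (Pool.Agent.N855.GF.Tw.tw_sqf (hT t ht) hsq) h5
        have h7 : t ∉ A := fun h7 => by
          have h8 := hA h7
          rw [hTp, mem_filter] at h8
          exact hR h8.2
        exact ⟨fun h8 => absurd h8 h6, fun h8 => absurd h8 h7⟩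
    · constructor
      · intro h5
        by_contra h6
        have h7 := h4 (Sum.inr t) (Finset.inr_mem_disjSum.2 (Finset.mem_sdiff.2 ⟨ht, h6⟩))
        rw [Kd_inr] at h7
        exact h7 h5
      · intro h5
        have h7 := h3 (Sum.inr t) (Finset.inr_mem_disjSum.2 h5)
        rw [Kd_inr] at h7
        exact h7
  · rintro ⟨h3, h4⟩
    refine ⟨fun x hx => ?_, fun x hx => ?_⟩
    · rcases x with t | t
      · rw [Finset.inl_mem_disjSum] at hx
        rw [Kd_inl]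
        have h5 := hA hx
        rw [hTp, mem_filter] at h5
        exact (h3 t h5.1).2 hx
      · rw [Finset.inr_mem_disjSum] at hx
        rw [Kd_inr]
        exact (h4 t (hA' hx)).2 hx
    · rcases x with t | t
      · rw [Finset.inl_mem_disjSum, Finset.mem_sdiff, hTp, mem_filter] at hx
        rw [Kd_inl]
        exact fun h5 => hx.2 ((h3 t hx.1.1).1 h5)
      · rw [Finset.inr_mem_disjSum, Finset.mem_sdiff] at hx
        rw [Kd_inr]
        exact fun h5 => hx.2 ((h4 t hx.1).1 h5)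

end Pool.Agent.H468.WJ
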