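import Pool.Agent.H468.WN.Ns
import Pool.Agent.H743.JL.All

/-!
# The joint law in all the types, uniformly in the condition on the prime factors
(after `H628.JX.HJ2`, `H225.JX` of helper628, helper225 and `H696.JL.HJ` of helper696)
-/

set_option autoImplicit false
set_option linter.all false

open scoped Classical

namespace Pool.Agent.H468.WJ

open Finset Filter Topology
open Pool.Agent.Y703.CQ (c2)
open Pool.Agent.N916.GB (eta)
open Pool.Agent.H743.X17 (Sys Rt)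
open Pool.Agent.H743.JL
open Pool.Agent.N855.GF.Lc17 (Lc Loc KQ mem_KQ)
open Pool.Agent.N919.BS (NN NS HG)
open Pool.Agent.N916.AM (LAH)
open Pool.Agent.H696.JL.HJ
open Pool.Agent.H628.JX.HJ2 (ck01 ro_excl)
open Pool.Agent.H468.WM (opf opf_eq Wt cnt HGW dqW filter_card_congr)

/-- `card` of the filters of equivalent predicates -/
theorem NN_def (P : ℤ → Prop) (s : ℤ) (k r Y : ℕ) : NN P s k r Y = ((Icc 1 Y).filter fun M =>
    Squarefree M ∧ M % 4 = r ∧ P (s * ((k * M : ℕ) : ℤ))).card := by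
  unfold Pool.Agent.N919.BS.NN
  exact filter_card_congr _ fun _ _ => Iff.rfl

theorem cntW {m : ℕ} {K : Finset ℕ} {s : ℤ} {k r : ℕ} (P : ℤ → Prop) (A : ℕ → Prop)
    (h : ∀ x, Squarefree x → ((x % 4 = r ∧ P (s * ((k * x : ℕ) : ℤ))) ↔ (x % m ∈ K ∧ A x))) (Y : ℕ) :
    NN P s k r Y = ((Icc 1 Y).filter fun x => Squarefree x ∧ x % m ∈ K ∧ A x).card := by
  rw [NN_def]
  refine filter_card_congr _ fun x _ => ?_
  constructor
  · rintro ⟨a, b⟩
    exact ⟨a, (h x a).1 b⟩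
  · rintro ⟨a, b⟩
    exact ⟨a, (h x a).2 b⟩

theorem hj2W (h : S_LV2) (n : ℕ) (sp : Fin n → Prop) (t : Fin n → ℤ) (m : ℕ) (Q : ℤ → Prop)
    (h136 : 136 ∣ m) (hm : 0 < m) (ht : ∀ i, Squarefree (t i) ∧ t i ∣ m)
    (hinj : ∀ i j, t i = t j → (sp i ↔ sp j) → i = j) (hQ : Lc m Q)
    (hR : ∀ d, Squarefree d → Q d → ∀ i, Ro (sp i) (tw (t i) d)) :
    HGW m Q (fun d => ∀ i, Kd (sp i) (tw (t i) d)) (∏ i, ck (sp i)) := by
  obtain ⟨tA, tC, -, -, tN, tI⟩ := Pool.Agent.H955.JL.TT.t_TT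
  intro s k r hs hk hr
  obtain ⟨u, hu⟩ : ∃ u : ℤ, u = s * (k : ℤ) := ⟨_, rfl⟩
  have hus : Squarefree u := by
    rw [hu]
    exact sq_u hs hk
  have hum : u ∣ (m : ℤ) := by
    have h2 : (2 : ℤ) ∣ m := by
      have : (2 : ℕ) ∣ m := Dvd.dvd.trans (by norm_num) h136
      exact_mod_cast this
    have h3 : u ∣ 2 := by
      rw [hu]
      rcases hs with rfl | rfl <;> rcases hk with rfl | rfl <;> norm_num
    exact h3.trans h2
  have hcast : ∀ M : ℕ, s * ((k * M : ℕ) : ℤ) = u * (M : ℤ) := by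
    intro M
    rw [hu]
    push_cast
    ring
  have hMu : ∀ M : ℕ, M % 2 = 1 → tw u (M : ℤ) = u * M := by
    intro M hM
    apply tw_cop
    rw [hu]
    exact gcd_u hs hk hM
  have hsq : ∀ M : ℕ, Squarefree M → M % 2 = 1 → Squarefree (s * ((k * M : ℕ) : ℤ)) := by
    intro M hM hM2
    rw [hcast, ← hMu M hM2]
    exact Pool.Agent.N855.GF.Tw.tw_sqf hus (Int.squarefree_natCast.2 hM)
  -- the two cases
  by_cases hcase : ∃ i j, (sp i ↔ sp j) ∧ t i = - t j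
  · obtain ⟨i, j, hij, htij⟩ := hcase
    have hno : ∀ d : ℤ, Squarefree d → ¬ Q d := by
      intro d hd hQd
      have h2 := hR d hd hQd i
      have h3 := hR d hd hQd j
      rw [htij, tN _ _ (ht j).1 hd] at h2
      exact ro_excl hij.symm h3 h2
    have hzero : ∀ (P : ℤ → Prop), (∀ d, P d → Q d) → ∀ Y, NN P s k r Y = 0 := by
      intro P hP Y
      exact NN_zero P (fun x hx hx4 hPx => hno _ (hsq x hx (by omega)) (hP _ hPx)) Y
    intro ε hε
    refine ⟨0, fun Y _ W _ => ?_⟩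
    rw [hzero _ (fun d hd => hd.1) Y, hzero (fun d => Q d ∧ W (opf d)) (fun d hd => hd.1) Y]
    simp only [Nat.cast_zero, mul_zero, sub_zero, abs_zero]
    positivity
  · have hcase' : ∀ i j, (sp i ↔ sp j) → t i ≠ - t j := fun i j hij h2 => hcase ⟨i, j, hij, h2⟩
    obtain ⟨K, hK⟩ : ∃ K : Finset ℕ, K = KQ m Q s k r Ct := ⟨_, rfl⟩
    have hmem : ∀ {x : ℕ}, Squarefree x → (x % m ∈ K ↔ x % 4 = r ∧ Ct x ∧
        Q (s * ((k * x : ℕ) : ℤ))) := by
      intro x hx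
      rw [hK]
      exact mem_KQ h136 hm hQ hs hk hr (fun _ => Iff.rfl) hx
    have hodd : ∀ a ∈ K, a % 2 = 1 := by
      intro a ha
      rw [hK] at ha
      have := (mem_filter.1 ha).2.1
      omega
    have h8 : 8 ∣ m := Dvd.dvd.trans (by norm_num) h136
    have h17 : 17 ∣ m := Dvd.dvd.trans (by norm_num) h136
    have htw : ∀ (i : Fin n) (M : ℕ), Squarefree M → M % 2 = 1 →
        tw (t i) (s * ((k * M : ℕ) : ℤ)) = tw (tw (t i) u) M := by
      intro i M hM hM2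
      rw [hcast, ← hMu M hM2]
      exact tA _ _ _ (ht i).1 hus (Int.squarefree_natCast.2 hM)
    obtain ⟨G, hG⟩ : ∃ G : Finset ℕ → Prop, G = fun S : Finset ℕ => ∀ i, Kd (sp i) (tw (tw (t i) u)
      (∏ p ∈ S, (p : ℤ))) := ⟨_, rfl⟩
    have hGx : ∀ x : ℕ, Squarefree x → (G x.primeFactors ↔ ∀ i, Kd (sp i) (tw (tw (t i) u) x)) := by
      intro x hx
      have e : (∏ p ∈ x.primeFactors, (p : ℤ)) = x := by
        rw [← Nat.cast_prod, Nat.prod_primeFactors_of_squarefree hx]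
      rw [hG]
      show (∀ i, Kd (sp i) (tw (tw (t i) u) (∏ p ∈ x.primeFactors, (p : ℤ)))) ↔ _
      rw [e]
    have hL : LAH m K G (∏ i, ck (sp i)) := by
      rw [hG]
      refine h n sp (fun i => tw (t i) u) m K hm h8 h17 ?_ ?_ ?_
      · intro i
        exact ⟨Pool.Agent.N855.GF.Tw.tw_sqf (ht i).1 hus, tw_dvd (ht i).1 hus (ht i).2 hum⟩
      · intro i j hij
        by_cases hsp : sp i ↔ sp j
        · left
          constructor
          · intro h2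
            exact hij (hinj i j (tI _ _ _ (ht i).1 (ht j).1 hus h2) hsp)
          · intro h2
            have h3 : tw (t i) u = tw (- t j) u := by
              rw [tN _ _ (ht j).1 hus]
              exact h2
            exact hcase' i j hsp (tI _ _ _ (ht i).1
              ((Pool.Agent.N919.BS.sq_neg (t j)).2 (ht j).1) hus h3)
        · exact Or.inr hsp
      · intro x hx hxo hxK i
        have h2 := (hmem hx).1 hxK
        have hx2 : x % 2 = 1 := Nat.odd_iff.1 hxo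
        have h3 := hR _ (hsq x hx hx2) h2.2.2 i
        rw [htw i x hx hx2] at h3
        exact h3
    have hc0 : (0:ℝ) ≤ ∏ i, ck (sp i) := Finset.prod_nonneg fun i _ => (ck01 (sp i)).1
    have hc1 : ∏ i, ck (sp i) ≤ (1:ℝ) := Finset.prod_le_one (fun i _ => (ck01 (sp i)).1)
      fun i _ => (ck01 (sp i)).2
    intro ε hε
    obtain ⟨X₀, hX₀⟩ := dqW h8 hm hc0 hc1 hL hodd ε hε
    refine ⟨X₀, fun Y hY W hW => ?_⟩
    obtain ⟨A, hA⟩ : ∃ A : ℕ → Prop, ∀ x, A x ↔ (G x.primeFactors ∧ W x.primeFactors) :=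
      ⟨_, fun _ => Iff.rfl⟩
    obtain ⟨B, hB⟩ : ∃ B : ℕ → Prop, ∀ x, B x ↔ W x.primeFactors := ⟨_, fun _ => Iff.rfl⟩
    have h2 := hX₀ Y hY W hW A B hA hB
    have hop : ∀ M : ℕ, M % 4 = r → (W (opf (s * ((k * M : ℕ) : ℤ))) ↔ W M.primeFactors) := by
      intro M hM
      rw [opf_eq hs hk (by omega)]
    have e1 : NN (fun d => Q d ∧ ((∀ i, Kd (sp i) (tw (t i) d)) ∧ W (opf d))) s k r Y =
        ((Icc 1 Y).filter fun x => Squarefree x ∧ x % m ∈ K ∧ A x).card := by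
      refine cntW _ A (fun x a => ?_) Y
      rw [hA x, hGx x a]
      constructor
      · rintro ⟨b, c, d, e⟩
        refine ⟨(hmem a).2 ⟨b, trivial, c⟩, fun i => ?_, (hop x b).1 e⟩
        have h3 := d i
        rw [htw i x a (by omega)] at h3
        exact h3
      · rintro ⟨b, d, e⟩
        obtain ⟨b1, -, b3⟩ := (hmem a).1 b
        refine ⟨b1, b3, fun i => ?_, (hop x b1).2 e⟩
        rw [htw i x a (by omega)]
        exact d i
    have e2 : NN (fun d => Q d ∧ W (opf d)) s k r Y =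
        ((Icc 1 Y).filter fun x => Squarefree x ∧ x % m ∈ K ∧ B x).card := by
      refine cntW _ B (fun x a => ?_) Y
      rw [hB x]
      constructor
      · rintro ⟨b, c, e⟩
        exact ⟨(hmem a).2 ⟨b, trivial, c⟩, (hop x b).1 e⟩
      · rintro ⟨b, e⟩
        obtain ⟨b1, -, b3⟩ := (hmem a).1 b
        exact ⟨b1, b3, (hop x b1).2 e⟩
    rw [e1, e2]
    exact h2

/-! ### patterns -/

theorem NN_congr' {P P' : ℤ → Prop} (h : ∀ d, P d ↔ P' d) (s : ℤ) (k r Y : ℕ) :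
    NN P s k r Y = NN P' s k r Y := by
  have : P = P' := funext fun d => propext (h d)
  rw [this]

theorem HGW_congr {m : ℕ} {P G G' : ℤ → Prop} {c c' : ℝ} (h : HGW m P G c)
    (hG : ∀ d, P d → (G d ↔ G' d)) (hc : c = c') : HGW m P G' c' := by
  subst hc
  intro s k r hs hk hr ε hε
  obtain ⟨Y₀, hY⟩ := h s k r hs hk hr ε hε
  refine ⟨Y₀, fun Y hY' W hW => ?_⟩
  rw [NN_congr' (P := fun d => P d ∧ (G' d ∧ W (opf d))) (P' := fun d => P d ∧ (G d ∧ W (opf d)))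
    (fun d => ⟨fun ⟨a, b⟩ => ⟨a, (hG d a).2 b.1, b.2⟩, fun ⟨a, b⟩ => ⟨a, (hG d a).1 b.1, b.2⟩⟩)]
  exact hY Y hY' W hW

theorem HGW_sub {m : ℕ} {P G₁ G₂ G : ℤ → Prop} {c₁ c₂ : ℝ} (hG₁ : HGW m P G₁ c₁)
    (hG₂ : HGW m P G₂ c₂) (h1 : ∀ d, P d → (G d ↔ G₁ d ∧ ¬ G₂ d)) (h2 : ∀ d, P d → G₂ d → G₁ d) :
    HGW m P G (c₁ - c₂) := by
  intro s k r hs hk hr ε hε
  obtain ⟨Y₁, hY₁⟩ := hG₁ s k r hs hk hr (ε / 2) (half_pos hε)
  obtain ⟨Y₂, hY₂⟩ := hG₂ s k r hs hk hr (ε / 2) (half_pos hε)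
  refine ⟨max Y₁ Y₂, fun Y hY W hW => ?_⟩
  have q1 := hY₁ Y ((le_max_left _ _).trans hY) W hW
  have q2 := hY₂ Y ((le_max_right _ _).trans hY) W hW
  have e := Pool.Agent.H307.JLPT.NN_add (P₁ := fun d => P d ∧ (G₁ d ∧ W (opf d)))
    (P₂ := fun d => P d ∧ (G d ∧ W (opf d))) (P₃ := fun d => P d ∧ (G₂ d ∧ W (opf d)))
    (fun d => by
      constructor
      · rintro ⟨a, b, c⟩
        by_cases hd : G₂ d
        · exact Or.inr ⟨a, hd, c⟩
        · exact Or.inl ⟨a, (h1 d a).2 ⟨b, hd⟩, c⟩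
      · rintro (⟨a, b, c⟩ | ⟨a, b, c⟩)
        · exact ⟨a, ((h1 d a).1 b).1, c⟩
        · exact ⟨a, h2 d a b, c⟩)
    (fun d a b => ((h1 d a.1).1 a.2.1).2 b.2.1) s k r Y
  have e' : (NN (fun d => P d ∧ (G₁ d ∧ W (opf d))) s k r Y : ℝ) =
      NN (fun d => P d ∧ (G d ∧ W (opf d))) s k r Y +
        NN (fun d => P d ∧ (G₂ d ∧ W (opf d))) s k r Y := by exact_mod_cast e
  rw [abs_le] at q1 q2 ⊢
  constructor
  · nlinarith [q1.1, q2.2]
  · nlinarith [q1.2, q2.1]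

end Pool.Agent.H468.WJ
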